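import Pool.Agent.W844.RB.Defs

/-!
RB-OPEN: from the BKR inequality for finitely many letters to open sets.
-/

set_option autoImplicit false

open MeasureTheory Set Filter Topology
open scoped ENNReal

namespace Pool.Agent.W397.RB

open Pool.Agent.W844.RB

/-- the cell of a point at level `n` -/
noncomputable def cN (n : ℕ) (x : unitInterval) : Fin (2 ^ n) :=
  ⟨min ⌊(2 : ℝ) ^ n * x⌋₊ (2 ^ n - 1), by
    have : 0 < 2 ^ n := by positivity
    exact lt_of_le_of_lt (min_le_right _ _) (by omega)⟩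

theorem cN_val (n : ℕ) (x : unitInterval) :
    (cN n x : ℕ) = min ⌊(2 : ℝ) ^ n * x⌋₊ (2 ^ n - 1) := rfl

theorem cN_mem {n : ℕ} (x : unitInterval) :
    (x : ℝ) ∈ Icc (((cN n x : ℕ) : ℝ) / 2 ^ n) ((((cN n x : ℕ) : ℝ) + 1) / 2 ^ n) := by
  have hp : (0 : ℝ) < 2 ^ n := by positivity
  have hx0 : 0 ≤ (2 : ℝ) ^ n * x := mul_nonneg hp.le x.2.1
  rw [cN_val]
  constructor
  · rw [div_le_iff₀ hp]
    have h1 : ((min ⌊(2 : ℝ) ^ n * x⌋₊ (2 ^ n - 1) : ℕ) : ℝ) ≤ (⌊(2 : ℝ) ^ n * x⌋₊ : ℝ) := by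
      exact_mod_cast min_le_left _ _
    have h2 := Nat.floor_le hx0
    linarith [mul_comm ((2 : ℝ) ^ n) (x : ℝ)]
  · rw [le_div_iff₀ hp]
    rcases min_choice ⌊(2 : ℝ) ^ n * x⌋₊ (2 ^ n - 1) with h | h
    · rw [h]
      have h2 := Nat.lt_floor_add_one ((2 : ℝ) ^ n * x)
      linarith [mul_comm ((2 : ℝ) ^ n) (x : ℝ)]
    · rw [h, Nat.cast_sub Nat.one_le_two_pow]
      push_cast
      have h3 : (x : ℝ) ≤ 1 := x.2.2
      nlinarith

theorem cN_close {n : ℕ} {x y : unitInterval} (h : cN n x = cN n y) :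
    |(x : ℝ) - y| ≤ 1 / 2 ^ n := by
  have h1 := cN_mem (n := n) x
  have h2 := cN_mem (n := n) y
  rw [← h] at h2
  have h3 : (((cN n x : ℕ) : ℝ) + 1) / 2 ^ n = ((cN n x : ℕ) : ℝ) / 2 ^ n + 1 / 2 ^ n := add_div _ _ _
  rw [h3] at h1 h2
  rw [abs_le]
  constructor <;> linarith [h1.1, h1.2, h2.1, h2.2]

theorem cN_of_mem {n : ℕ} {x : unitInterval} {j : Fin (2 ^ n)}
    (h : (x : ℝ) ∈ Ico (((j : ℕ) : ℝ) / 2 ^ n) ((((j : ℕ) : ℝ) + 1) / 2 ^ n)) : cN n x = j := by
  have hp : (0 : ℝ) < 2 ^ n := by positivity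
  apply Fin.ext
  rw [cN_val]
  have h1 : ⌊(2 : ℝ) ^ n * x⌋₊ = (j : ℕ) := by
    rw [Nat.floor_eq_iff (mul_nonneg hp.le x.2.1)]
    have h2 := (div_le_iff₀ hp).1 h.1
    have h3 := (lt_div_iff₀ hp).1 h.2
    constructor <;> linarith [mul_comm ((2 : ℝ) ^ n) (x : ℝ)]
  rw [h1]
  have := j.2
  omega

theorem cN_measurable (n : ℕ) : Measurable (cN n) := by
  refine measurable_to_countable' fun j => ?_
  have h1 : cN n ⁻¹' {j} = (fun x : unitInterval => min ⌊(2 : ℝ) ^ n * x⌋₊ (2 ^ n - 1)) ⁻¹' {(j : ℕ)} := by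
    ext x
    simp only [mem_preimage, mem_singleton_iff, Fin.ext_iff, cN_val]
  rw [h1]
  have h2 : Measurable (fun x : unitInterval => min ⌊(2 : ℝ) ^ n * x⌋₊ (2 ^ n - 1)) :=
    (Nat.measurable_floor.comp (measurable_subtype_coe.const_mul _)).min measurable_const
  exact h2 (measurableSet_singleton _)

theorem cN_volume {n : ℕ} (j : Fin (2 ^ n)) :
    (volume : Measure unitInterval) (cN n ⁻¹' {j}) = ENNReal.ofReal (1 / 2 ^ n) := by
  have hp : (0 : ℝ) < 2 ^ n := by positivity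
  have hj : ((j : ℕ) : ℝ) + 1 ≤ 2 ^ n := by
    have := j.2
    exact_mod_cast this
  rw [unitInterval.volume_apply]
  have hdiff : (((j : ℕ) : ℝ) + 1) / 2 ^ n - ((j : ℕ) : ℝ) / 2 ^ n = 1 / 2 ^ n := by ring
  apply le_antisymm
  · calc volume (Subtype.val '' (cN n ⁻¹' {j}))
        ≤ volume (Icc (((j : ℕ) : ℝ) / 2 ^ n) ((((j : ℕ) : ℝ) + 1) / 2 ^ n)) := by
          apply measure_mono
          rintro _ ⟨x, hx, rfl⟩
          have h1 : cN n x = j := hx
          have h2 := cN_mem (n := n) x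
          rwa [h1] at h2
      _ = ENNReal.ofReal (1 / 2 ^ n) := by rw [Real.volume_Icc, hdiff]
  · calc ENNReal.ofReal (1 / 2 ^ n)
        = volume (Ico (((j : ℕ) : ℝ) / 2 ^ n) ((((j : ℕ) : ℝ) + 1) / 2 ^ n)) := by
          rw [Real.volume_Ico, hdiff]
      _ ≤ volume (Subtype.val '' (cN n ⁻¹' {j})) := by
          apply measure_mono
          intro x hx
          have h0 : 0 ≤ x := le_trans (by positivity) hx.1
          have h1 : x ≤ 1 := by
            refine hx.2.le.trans ?_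
            rw [div_le_one hp]
            exact hj
          exact ⟨⟨x, h0, h1⟩, cN_of_mem hx, rfl⟩

/-- the measure -/
noncomputable abbrev mm : Measure (ℕ → unitInterval) :=
  Measure.infinitePi (fun _ : ℕ => (volume : Measure unitInterval))

/-- discretisation -/
noncomputable def qn (n : ℕ) (ω : ℕ → unitInterval) : Fin n → Fin (2 ^ n) := fun i => cN n (ω i)

theorem qn_measurable (n : ℕ) : Measurable (qn n) :=
  measurable_pi_lambda _ fun i => (cN_measurable n).comp (measurable_pi_apply (i : ℕ))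

theorem qn_cell (n : ℕ) (a : Fin n → Fin (2 ^ n)) :
    mm (qn n ⁻¹' {a}) = ENNReal.ofReal (1 / 2 ^ n) ^ n := by
  obtain ⟨a', ha'⟩ : ∃ a' : ℕ → Fin (2 ^ n), ∀ i : Fin n, a' i = a i :=
    ⟨fun i => if h : i < n then a ⟨i, h⟩ else ⟨0, by positivity⟩, fun i => by simp⟩
  have h1 : qn n ⁻¹' {a} = Set.pi (Finset.range n : Set ℕ) (fun i => cN n ⁻¹' {a' i}) := by
    ext ω
    simp only [mem_preimage, mem_singleton_iff, Set.mem_pi, Finset.mem_coe, Finset.mem_range]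
    constructor
    · intro h i hi
      have h2 := congrFun h ⟨i, hi⟩
      have h3 := ha' ⟨i, hi⟩
      simp only at h3
      rw [h3]
      exact h2
    · intro h
      funext i
      have h2 := h i i.2
      rw [ha'] at h2
      exact h2
  rw [h1, Measure.infinitePi_pi _ (fun i _ => cN_measurable n (measurableSet_singleton _))]
  rw [Finset.prod_congr rfl fun i _ => cN_volume (a' i), Finset.prod_const, Finset.card_range]

theorem qn_set (n : ℕ) (A : Set (Fin n → Fin (2 ^ n))) :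
    mm (qn n ⁻¹' A) = (Nat.card A : ℝ≥0∞) * ENNReal.ofReal (1 / 2 ^ n) ^ n := by
  classical
  have h1 : qn n ⁻¹' A = ⋃ a ∈ A.toFinset, qn n ⁻¹' {a} := by
    ext ω
    simp
  rw [h1, measure_biUnion_finset]
  · rw [Finset.sum_congr rfl fun a _ => qn_cell n a, Finset.sum_const, nsmul_eq_mul,
      Set.toFinset_card, Nat.card_eq_fintype_card]
  · intro a _ b _ hab
    rw [Function.onFun, Set.disjoint_left]
    intro ω h2 h3
    exact hab (h2.symm.trans h3)
  · intro a _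
    exact qn_measurable n (measurableSet_singleton _)

/-- the inner discretisation -/
def inn (n : ℕ) (U : Set (ℕ → unitInterval)) : Set (Fin n → Fin (2 ^ n)) :=
  {a | ∀ ω, qn n ω = a → ω ∈ U}

theorem inn_sub (n : ℕ) (U : Set (ℕ → unitInterval)) : qn n ⁻¹' (inn n U) ⊆ U :=
  fun ω h => h ω rfl

theorem bound (h : S_BKR) (n : ℕ) (U V : Set (ℕ → unitInterval)) :
    mm (qn n ⁻¹' (bx (inn n U) (inn n V))) ≤ mm U * mm V := by
  have h1 := h n n (inn n U) (inn n V)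
  have hc0 : ENNReal.ofReal (1 / 2 ^ n) ^ n ≠ ⊤ := ENNReal.pow_ne_top ENNReal.ofReal_ne_top
  have hM : ((((2 ^ n) ^ n : ℕ) : ℝ≥0∞)) * ENNReal.ofReal (1 / 2 ^ n) ^ n = 1 := by
    have h2 : ((((2 ^ n) ^ n : ℕ) : ℝ≥0∞)) = (ENNReal.ofReal (2 ^ n)) ^ n := by
      rw [ENNReal.ofReal_pow (by norm_num)]
      push_cast
      norm_num
    rw [h2, ← mul_pow, ← ENNReal.ofReal_mul (by positivity)]
    have h3 : (2 : ℝ) ^ n * (1 / 2 ^ n) = 1 := by
      field_simp
    rw [h3, ENNReal.ofReal_one, one_pow]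
  have h4 : (Nat.card (bx (inn n U) (inn n V)) : ℝ≥0∞) * (((2 ^ n) ^ n : ℕ) : ℝ≥0∞) ≤
      (Nat.card (inn n U) : ℝ≥0∞) * (Nat.card (inn n V) : ℝ≥0∞) := by
    exact_mod_cast h1
  calc mm (qn n ⁻¹' (bx (inn n U) (inn n V)))
      = (Nat.card (bx (inn n U) (inn n V)) : ℝ≥0∞) * ENNReal.ofReal (1 / 2 ^ n) ^ n :=
        qn_set n _
    _ = ((Nat.card (bx (inn n U) (inn n V)) : ℝ≥0∞) * (((2 ^ n) ^ n : ℕ) : ℝ≥0∞)) *
        (ENNReal.ofReal (1 / 2 ^ n) ^ n * ENNReal.ofReal (1 / 2 ^ n) ^ n) := by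
        rw [mul_assoc, ← mul_assoc (((2 ^ n) ^ n : ℕ) : ℝ≥0∞), hM, one_mul]
    _ ≤ ((Nat.card (inn n U) : ℝ≥0∞) * (Nat.card (inn n V) : ℝ≥0∞)) *
        (ENNReal.ofReal (1 / 2 ^ n) ^ n * ENNReal.ofReal (1 / 2 ^ n) ^ n) :=
        mul_le_mul_left h4 _
    _ = ((Nat.card (inn n U) : ℝ≥0∞) * ENNReal.ofReal (1 / 2 ^ n) ^ n) *
        ((Nat.card (inn n V) : ℝ≥0∞) * ENNReal.ofReal (1 / 2 ^ n) ^ n) := by ring
    _ = mm (qn n ⁻¹' (inn n U)) * mm (qn n ⁻¹' (inn n V)) := by rw [qn_set, qn_set]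
    _ ≤ mm U * mm V := mul_le_mul' (measure_mono (inn_sub n U)) (measure_mono (inn_sub n V))

/-- compactness -/
theorem compact_step {U : Set (ℕ → unitInterval)} (hU : IsOpen U) (ω : ℕ → unitInterval)
    (J : Set ℕ) (hJ : ∀ η : ℕ → unitInterval, (∀ i ∈ J, η i = ω i) → η ∈ U) :
    ∃ m : ℕ, ∀ n, m ≤ n → ∀ η : ℕ → unitInterval, (∀ i ∈ J, i < n → cN n (η i) = cN n (ω i)) →
      η ∈ U := by
  obtain ⟨Fm, hFm⟩ : ∃ Fm : ℕ → Set (ℕ → unitInterval), ∀ m η, η ∈ Fm m ↔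
      ∀ i ∈ J, i < m → |((η i : unitInterval) : ℝ) - ω i| ≤ 1 / 2 ^ m :=
    ⟨fun m => {η | ∀ i ∈ J, i < m → |((η i : unitInterval) : ℝ) - ω i| ≤ 1 / 2 ^ m},
      fun m η => Iff.rfl⟩
  have hpw : ∀ m m' : ℕ, m ≤ m' → (1 : ℝ) / 2 ^ m' ≤ 1 / 2 ^ m := by
    intro m m' h
    apply one_div_le_one_div_of_le (by positivity)
    exact pow_le_pow_right₀ (by norm_num) h
  have hcl : ∀ m, IsClosed (Fm m) := by
    intro m
    have h1 : Fm m = ⋂ i ∈ J, ⋂ (_ : i < m),
        {η : ℕ → unitInterval | |((η i : unitInterval) : ℝ) - ω i| ≤ 1 / 2 ^ m} := by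
      ext η
      rw [hFm]
      simp only [mem_iInter]
      exact Iff.rfl
    rw [h1]
    refine isClosed_biInter fun i _ => isClosed_iInter fun _ => ?_
    refine isClosed_le ?_ continuous_const
    exact ((continuous_subtype_val.comp (continuous_apply i)).sub continuous_const).abs
  have hanti : Antitone Fm := by
    intro m m' h η hη
    rw [hFm] at hη ⊢
    intro i hi him
    exact (hη i hi (lt_of_lt_of_le him h)).trans (hpw m m' h)
  obtain ⟨m, hm⟩ := exists_subset_nhds_of_isCompact' (V := Fm) hanti.directed_ge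
    (fun m => (hcl m).isCompact) hcl (U := U) (by
      intro η hη
      refine hU.mem_nhds (hJ η fun i hi => ?_)
      have h1 : ∀ m, i < m → |((η i : unitInterval) : ℝ) - ω i| ≤ 1 / 2 ^ m := by
        intro m him
        exact (hFm m η).1 (mem_iInter.1 hη m) i hi him
      have h2 : |((η i : unitInterval) : ℝ) - ω i| ≤ 0 := by
        have ht : Tendsto (fun m : ℕ => (1 : ℝ) / 2 ^ m) atTop (𝓝 0) := by
          have := tendsto_pow_atTop_nhds_zero_of_lt_one (r := (1 / 2 : ℝ)) (by norm_num)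
            (by norm_num)
          simpa using this
        refine ge_of_tendsto ht ?_
        filter_upwards [eventually_gt_atTop i] with m hm
        exact h1 m hm
      have h3 : |((η i : unitInterval) : ℝ) - ω i| = 0 := le_antisymm h2 (abs_nonneg _)
      apply Subtype.ext
      exact sub_eq_zero.1 (abs_eq_zero.1 h3))
  refine ⟨m, fun n hn η hη => hm ?_⟩
  rw [hFm]
  intro i hi him
  exact (cN_close (hη i hi (by omega))).trans (hpw m n hn)

theorem opn : S_BKR → S_OPEN := by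
  intro h U V hU hV
  obtain ⟨E, hE⟩ : ∃ E : ℕ → Set (ℕ → unitInterval),
      E = fun n => qn n ⁻¹' (bx (inn n U) (inn n V)) := ⟨_, rfl⟩
  have hEm : ∀ n, MeasurableSet (E n) := by
    intro n
    rw [hE]
    exact qn_measurable n (MeasurableSet.of_discrete)
  obtain ⟨D, hD⟩ : ∃ D : ℕ → Set (ℕ → unitInterval), D = fun N => ⋂ n, ⋂ (_ : N ≤ n), E n :=
    ⟨_, rfl⟩
  have hDm : ∀ N, MeasurableSet (D N) := by
    intro N
    rw [hD]
    exact MeasurableSet.iInter fun n => MeasurableSet.iInter fun _ => hEm n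
  have hmono : Monotone D := by
    intro N N' hN ω hω
    rw [hD] at hω ⊢
    simp only [mem_iInter] at hω ⊢
    exact fun n hn => hω n (hN.trans hn)
  refine ⟨⋃ N, D N, MeasurableSet.iUnion hDm, ?_, ?_⟩
  · rintro ω ⟨J, K, hJK, hJ, hK⟩
    obtain ⟨m1, h1⟩ := compact_step hU ω J hJ
    obtain ⟨m2, h2⟩ := compact_step hV ω K hK
    rw [mem_iUnion]
    refine ⟨max m1 m2, ?_⟩
    rw [hD]
    simp only [mem_iInter]
    intro n hn
    rw [hE]
    refine ⟨{i | (i : ℕ) ∈ J}, {i | (i : ℕ) ∈ K}, ?_, ?_, ?_⟩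
    · rw [Set.disjoint_left] at hJK ⊢
      intro i hi hi'
      exact hJK hi hi'
    · intro η hη ω' hω'
      refine h1 n ((le_max_left _ _).trans hn) ω' fun i hi hin => ?_
      have h3 := hη ⟨i, hin⟩ hi
      rw [← hω'] at h3
      exact h3
    · intro η hη ω' hω'
      refine h2 n ((le_max_right _ _).trans hn) ω' fun i hi hin => ?_
      have h3 := hη ⟨i, hin⟩ hi
      rw [← hω'] at h3
      exact h3
  · rw [hmono.measure_iUnion]
    refine iSup_le fun N => ?_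
    refine le_trans (measure_mono (t := E N) ?_) ?_
    · intro ω hω
      rw [hD] at hω
      simp only [mem_iInter] at hω
      exact hω N le_rfl
    · rw [hE]
      exact bound h N U V

end Pool.Agent.W397.RB
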